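import Mathlib
import Pool.Agent.N840.TP.Ell

/-!
# Few semistable curves with a large Szpiro ratio: the square root of the number of all curves

Consider the semistable elliptic curves over `ℚ` with a subgroup `T` of rational points, for
`T = ℤ/2 × ℤ/2`, `ℤ/6`, `ℤ/2 × ℤ/4`, `ℤ/2 × ℤ/6`. The modular curve has `q = 3, 4, 4, 6` cusps, all
of them rational, and the number of the curves of conductor `N ≤ X`, of all heights, has the order
of magnitude `X ^ (2 / q)` (starting library). Szpiro's conjecture says that there are only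
finitely many curves with `|Δ| ≥ N ^ κ` for each `κ > 6`. We prove that for every `ε > 0` there is
`M` such that for every `A` at most `C X ^ (1 / q + ε)` of the curves have `N ≤ X` and
`N ^ M ≤ |Δ| ≤ X ^ A`.

Proof. The discriminant is, up to bounded factors, a product of powers of the values of `q` linear
forms at a primitive integral point, with essentially coprime radicals. Three of the values have
radicals with a product at most `X ^ (3 / q)`. They are, up to bounded factors, the members of an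
abc-triple, and the theorem of helper745 (`Pool.Agent.N745.T1.count_third`) on the abc-triples with
`rad ^ M ≤ c` applies.
-/

set_option autoImplicit false

namespace Pool.Agent.Results.MP_d8bd92_nt.LargeSzpiroRatio

/-- the product of the primes dividing `Δ(W)` (the conductor if `gcd(c₄, Δ) = 1`) -/
def conductor (W : WeierstrassCurve ℤ) : ℕ := ∏ p ∈ W.Δ.natAbs.primeFactors, p

/-- `W` is the minimal model of a semistable elliptic curve over `ℚ` -/
def Semistable (W : WeierstrassCurve ℤ) : Prop := W.Δ ≠ 0 ∧ IsCoprime W.c₄ W.Δ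

/-- the group of the rational points of the curve contains a subgroup isomorphic to `T` -/
def HasTorsion (T : Type) [AddCommGroup T] (W : WeierstrassCurve ℤ) : Prop :=
  ∃ f : T →+ (W.map (Int.castRingHom ℚ)).toAffine.Point, Function.Injective f

/-- the invariants `(c₄, c₆)` of the semistable elliptic curves over `ℚ` with a subgroup of
rational points isomorphic to `T`, with conductor `N ≤ X` and `N ^ M ≤ |Δ| ≤ X ^ A` -/
def Large (T : Type) [AddCommGroup T] (M A X : ℝ) : Set (ℤ × ℤ) :=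
  {g | ∃ W : WeierstrassCurve ℤ, Semistable W ∧ HasTorsion T W ∧ (conductor W : ℝ) ≤ X ∧
    (conductor W : ℝ) ^ M ≤ |(W.Δ : ℝ)| ∧ |(W.Δ : ℝ)| ≤ X ^ A ∧ (W.c₄, W.c₆) = g}

/-- the invariants `(c₄, c₆)` of the semistable elliptic curves over `ℚ` with a subgroup of
rational points isomorphic to `T`, of naive height `max (|c₄|³, c₆²) ≤ H`, with
`c₀ N ^ κ < |Δ|` -/
def Violating (T : Type) [AddCommGroup T] (κ c₀ H : ℝ) : Set (ℤ × ℤ) :=
  {g | ∃ W : WeierstrassCurve ℤ, Semistable W ∧ HasTorsion T W ∧ |(W.c₄ : ℝ)| ^ 3 ≤ H ∧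
    (W.c₆ : ℝ) ^ 2 ≤ H ∧ c₀ * (conductor W : ℝ) ^ κ < |(W.Δ : ℝ)| ∧ (W.c₄, W.c₆) = g}

/-- For every `ε > 0` there is `M` such that (1) for every `A` at most `C X ^ (s + ε)` semistable
curves with torsion `T` have `N ≤ X` and `N ^ M ≤ |Δ| ≤ X ^ A`; (2) for all `κ ≥ M` and `c₀ > 0` at
most `C H ^ ((s + ε) / κ)` semistable curves with torsion `T` and naive height at most `H` violate
`|Δ| ≤ c₀ N ^ κ`. -/
def FewLarge (T : Type) [AddCommGroup T] (s : ℝ) : Prop :=
  ∀ ε : ℝ, 0 < ε → ∃ M : ℝ,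
    (∀ A : ℝ, ∃ C : ℝ, 0 < C ∧ ∀ X : ℝ, 1 ≤ X → (Large T M A X).Finite ∧
      ((Large T M A X).ncard : ℝ) ≤ C * X ^ (s + ε)) ∧
    (∀ κ c₀ : ℝ, M ≤ κ → 0 < c₀ → ∃ C : ℝ, 0 < C ∧ ∀ H : ℝ, 1 ≤ H → (Violating T κ c₀ H).Finite ∧
      ((Violating T κ c₀ H).ncard : ℝ) ≤ C * H ^ ((s + ε) / κ))

open Pool.Agent.Y680.T in
theorem few_of {T : Type} [AddCommGroup T] {q : ℕ} {s : ℝ} (F : Fam q (Tor T)) (hq : 3 ≤ q)
    (hs : s = 1 / (q : ℝ)) : FewLarge T s := by
  intro ε hε
  obtain ⟨M, hM1, hM⟩ := Pool.Agent.N840.TP.fam_tall F hq ε hε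
  have e1 : ∀ M' A X, Pool.Agent.N840.TP.TC (Tor T) M' A X = Large T M' A X := by
    intro M' A X
    ext g
    constructor
    · rintro ⟨W, ⟨h1, h2⟩, h3, h4, h5, h6⟩
      exact ⟨W, h1, h2, h3, h4, h5, h6⟩
    · rintro ⟨W, h1, h2, h3, h4, h5, h6⟩
      exact ⟨W, ⟨h1, h2⟩, h3, h4, h5, h6⟩
  have e2 : ∀ κ c₀ H, Pool.Agent.N840.TP.VC (Tor T) κ c₀ H = Violating T κ c₀ H := by
    intro κ c₀ H
    ext g
    constructor
    · rintro ⟨W, ⟨h1, h2⟩, h3, h4, h5, h6⟩
      exact ⟨W, h1, h2, h3, h4, h5, h6⟩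
    · rintro ⟨W, h1, h2, h3, h4, h5, h6⟩
      exact ⟨W, ⟨h1, h2⟩, h3, h4, h5, h6⟩
  refine ⟨M + 1, fun A => ?_, fun κ c₀ hκ hc₀ => ?_⟩
  · obtain ⟨C, hC, h⟩ := hM A
    refine ⟨C, hC, fun X hX => ?_⟩
    obtain ⟨h1, h2⟩ := h X hX
    rw [e1] at h1 h2
    have hsub : Large T (M + 1) A X ⊆ Large T M A X := by
      rintro g ⟨W, w1, w2, w3, w4, w5, w6⟩
      refine ⟨W, w1, w2, w3, le_trans ?_ w4, w5, w6⟩
      apply Real.rpow_le_rpow_of_exponent_le _ (by linarith)
      exact_mod_cast rd_pos W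
    refine ⟨h1.subset hsub, ?_⟩
    rw [hs]
    exact le_trans (by exact_mod_cast Set.ncard_le_ncard hsub h1) h2
  · obtain ⟨C, hC, h⟩ := Pool.Agent.N840.TP.fam_height F hq ε hε hM1 hM κ c₀ hκ hc₀
    refine ⟨C, hC, fun H hH => ?_⟩
    rw [← e2, hs]
    exact h H hH

/-- **Few semistable curves with a large Szpiro ratio.** For every `ε > 0` there is `M` such that
for every `A` the semistable elliptic curves over `ℚ` with full rational 2-torsion, `N ≤ X` and
`N ^ M ≤ |Δ| ≤ X ^ A` are at most `C X ^ (1/3 + ε)` in number, those with a rational point of order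
`6` or a subgroup `ℤ/2 × ℤ/4` of rational points at most `C X ^ (1/4 + ε)`, and those with a
subgroup `ℤ/2 × ℤ/6` at most `C X ^ (1/6 + ε)`. For all `κ ≥ M` and `c₀ > 0` at most
`C H ^ ((1/3 + ε) / κ)`, `C H ^ ((1/4 + ε) / κ)`, `C H ^ ((1/4 + ε) / κ)`, `C H ^ ((1/6 + ε) / κ)`
of those of naive height at most `H` violate `|Δ| ≤ c₀ N ^ κ`. -/
theorem result : FewLarge (ZMod 2 × ZMod 2) (1 / 3) ∧ FewLarge (ZMod 6) (1 / 4) ∧
    FewLarge (ZMod 2 × ZMod 4) (1 / 4) ∧ FewLarge (ZMod 2 × ZMod 6) (1 / 6) :=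
  ⟨few_of Pool.Agent.N840.TP.F22 (by norm_num) (by norm_num),
    few_of Pool.Agent.Y680.T.F6 (by norm_num) (by norm_num),
    few_of Pool.Agent.Y680.T.F24 (by norm_num) (by norm_num),
    few_of Pool.Agent.Y680.T.F26 (by norm_num) (by norm_num)⟩

end Pool.Agent.Results.MP_d8bd92_nt.LargeSzpiroRatio
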