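import Mathlib
import Pool.Agent.N751.RW.Conv
import Pool.Agent.N751.RW.SemiLow
import Pool.Agent.N751.RW.Sum
import Pool.Agent.N751.RW.Cell
import Pool.Agent.N751.RW.Mert
import Pool.Agent.N751.RW.LsH
import Pool.Agent.N751.RW.Key

/-!
# Szpiro's inequality for almost all semistable fibres of all one-parameter families

One set `E` of rational numbers of density zero such that for EVERY one-parameter family
`y² = x³ + A(T) x + B(T)` of elliptic curves over `ℚ` with non-constant `j`-invariant, and every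
change of the parameter, all semistable elliptic curves over `ℚ` with the `j`-invariant of the fibre
over some `t ∉ E` satisfy `864 |Δ| ≤ max (|c₄|³, c₆²) ≤ C N ^ (κ (n) + ε)`, where `deg A ≤ 2n`,
`deg B ≤ 3n` and `κ (n) = 6 n / min (n + 2, 4)`, that is `2, 3, 9/2, 6` for `n = 1, 2, 3, 4`. The
families with `n = 2` are the rational elliptic surfaces, those with `n = 4` the elliptic `K3`
surfaces.
-/

set_option autoImplicit false

namespace Pool.Agent.Results.MP_d8bd92_nt.SemistableFibres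

open Polynomial

/-- `W` is the minimal equation of a semistable elliptic curve over `ℚ`: `Δ ≠ 0` and
`gcd (c₄, Δ) = 1` -/
def Semistable (W : WeierstrassCurve ℤ) : Prop := W.Δ ≠ 0 ∧ IsCoprime W.c₄ W.Δ

/-- the conductor `N` of a semistable curve: the product of the primes dividing `Δ` -/
def conductor (W : WeierstrassCurve ℤ) : ℕ := ∏ p ∈ W.Δ.natAbs.primeFactors, p

/-- the height `max (|c₄|³, c₆²)`; it is at least `864 |Δ|` -/
noncomputable def height (W : WeierstrassCurve ℤ) : ℝ := max (|(W.c₄ : ℝ)| ^ 3) ((W.c₆ : ℝ) ^ 2)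

/-- the elements of `E` of height at most `X`: numerator and denominator at most `X` in absolute
value; the number of all rational numbers of height at most `X` is `(12 / π²) X² (1 + o(1))` -/
def upTo (E : Set ℚ) (X : ℝ) : Set ℚ := {t | t ∈ E ∧ |(t.num : ℝ)| ≤ X ∧ (t.den : ℝ) ≤ X}

/-- a one-parameter family `y² = x³ + A(T) x + B(T)` of elliptic curves over `ℚ` with non-constant
`j`-invariant and `deg A ≤ 2n`, `deg B ≤ 3n` -/
structure IsFamily (n : ℕ) (A B : ℤ[X]) : Prop where
  deg_A : A.natDegree ≤ 2 * n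
  deg_B : B.natDegree ≤ 3 * n
  nonisotrivial : ∀ x y : ℤ, C x * A ^ 3 = C y * B ^ 2 → x = 0 ∧ y = 0

/-- the family is minimal up to quadratic twists and the fibre at infinity is smooth -/
structure IsMinimalFamily (n : ℕ) (A B : ℤ[X]) : Prop where
  deg_disc : (4 * A ^ 3 + 27 * B ^ 2).natDegree = 6 * n
  minimal : ∀ π : ℚ[X], Irreducible π →
    ¬ (π ^ 2 ∣ A.map (Int.castRingHom ℚ) ∧ π ^ 3 ∣ B.map (Int.castRingHom ℚ))

/-- all bad fibres of the family are of multiplicative type up to a quadratic twist, and the fibre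
at infinity is smooth -/
structure IsSemistableFamily (n : ℕ) (A B : ℤ[X]) : Prop where
  deg_disc : (4 * A ^ 3 + 27 * B ^ 2).natDegree = 6 * n
  coprime : IsCoprime (A.map (Int.castRingHom ℚ)) (B.map (Int.castRingHom ℚ))

/-- the closed points of the line with a bad fibre: the monic irreducible factors over `ℚ` of the
discriminant `4 A³ + 27 B²` -/
noncomputable def badPoints (A B : ℤ[X]) : Finset ℚ[X] :=
  UniqueFactorizationMonoid.primeFactors ((4 * A ^ 3 + 27 * B ^ 2).map (Int.castRingHom ℚ))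

/-- the weight of the bad points: a point of degree `d` counts `d` if `d ≤ 5`, and `4` if `d ≥ 6` -/
noncomputable def weight (A B : ℤ[X]) : ℕ :=
  ∑ P ∈ badPoints A B, if P.natDegree ≤ 5 then P.natDegree else 4

/-- the number of the bad fibres over the algebraic closure -/
noncomputable def geometricPoints (A B : ℤ[X]) : ℕ := ∑ P ∈ badPoints A B, P.natDegree

/-- `W` has the `j`-invariant of `y² = x³ + A(s) x + B(s)` -/
def SameJ (A B : ℤ[X]) (s : ℚ) (W : WeierstrassCurve ℤ) : Prop :=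
  (W.c₄ : ℚ) ^ 3 / W.Δ =
    1728 * (4 * aeval s A ^ 3) / (4 * aeval s A ^ 3 + 27 * aeval s B ^ 2)

/-- a change of the parameter `t ↦ (α t + β) / (γ t + δ)`, `g = (α, β, γ, δ)` -/
def IsChange (g : Fin 4 → ℚ) : Prop := g 0 * g 3 - g 1 * g 2 ≠ 0

/-- the fibre over `s` is smooth and its `j`-invariant is not `0` or `1728` -/
def Ordinary (A B : ℤ[X]) (s : ℚ) : Prop :=
  aeval s A ≠ 0 ∧ aeval s B ≠ 0 ∧ 4 * aeval s A ^ 3 + 27 * aeval s B ^ 2 ≠ 0

/-- the modified Szpiro inequality with the exponent `κ` (and some constant `C`) for all semistable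
curves with the `j`-invariant of the fibre over `s = (α t + β) / (γ t + δ)`, for all `t ∉ E` -/
def Holds (E : Set ℚ) (A B : ℤ[X]) (g : Fin 4 → ℚ) (κ : ℝ) : Prop :=
  ∃ C : ℝ, ∀ t : ℚ, t ∉ E → g 2 * t + g 3 ≠ 0 → ∀ s : ℚ, s = (g 0 * t + g 1) / (g 2 * t + g 3) →
    Ordinary A B s → ∀ W : WeierstrassCurve ℤ, Semistable W → SameJ A B s W →
      height W ≤ C * (conductor W : ℝ) ^ κ

/-- the exponent `κ` is attained, up to a constant, by all semistable curves with the `j`-invariant
of a fibre -/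
def Attained (A B : ℤ[X]) (κ : ℝ) : Prop :=
  ∃ c : ℝ, 0 < c ∧ ∀ s : ℚ, Ordinary A B s → ∀ W : WeierstrassCurve ℤ, Semistable W →
    SameJ A B s W → c * (conductor W : ℝ) ^ κ ≤ height W

open Pool.Agent.N751.RW in
theorem cond_eq {W : WeierstrassCurve ℤ} (hW : Semistable W) :
    (Pool.Agent.H39R3.condW W : ℝ) ≤ conductor W ∧
      (conductor W : ℝ) ≤ 6 * Pool.Agent.H39R3.condW W ∧
      (1 : ℝ) ≤ Pool.Agent.H39R3.condW W := by
  obtain ⟨P, hP⟩ : ∃ P, P = W.Δ.natAbs.primeFactors := ⟨_, rfl⟩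
  have hp : ∀ p ∈ P, p.Prime := fun p h => by
    rw [hP] at h
    exact Nat.prime_of_mem_primeFactors h
  have h1 : Pool.Agent.H39R3.condW W = ∏ p ∈ P.filter (fun p => 5 ≤ p), p := by
    unfold Pool.Agent.H39R3.condW
    rw [hP]
    refine Finset.prod_congr rfl (fun p h => ?_)
    have hp1 := (Finset.mem_filter.mp h).1
    rw [if_neg]
    intro h4
    have hpp := Nat.prime_iff_prime_int.mp (Nat.prime_of_mem_primeFactors hp1)
    have hd : (p : ℤ) ∣ W.Δ := Int.natCast_dvd.mpr (Nat.dvd_of_mem_primeFactors hp1)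
    exact hpp.not_isUnit (hW.2.isUnit_of_dvd' h4 hd)
  have h2 : conductor W = (∏ p ∈ P.filter (fun p => 5 ≤ p), p) *
      ∏ p ∈ P.filter (fun p => ¬ 5 ≤ p), p := by
    unfold conductor
    rw [← hP, Finset.prod_filter_mul_prod_filter_not]
  have h3 : 1 ≤ ∏ p ∈ P.filter (fun p => ¬ 5 ≤ p), p :=
    Nat.one_le_iff_ne_zero.2 (Finset.prod_ne_zero_iff.2 fun p h =>
      (hp p (Finset.mem_filter.1 h).1).ne_zero)
  have h4 : ∏ p ∈ P.filter (fun p => ¬ 5 ≤ p), p ≤ 6 := by
    have h5 : P.filter (fun p => ¬ 5 ≤ p) ⊆ {2, 3} := by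
      intro p h
      rw [Finset.mem_filter] at h
      have h6 := (hp p h.1).two_le
      have h7 : p ≠ 4 := by
        rintro rfl
        exact absurd (hp 4 h.1) (by decide)
      have h8 : p = 2 ∨ p = 3 := by omega
      simpa using h8
    have h6 : ∏ p ∈ P.filter (fun p => ¬ 5 ≤ p), p ≤ ∏ p ∈ ({2, 3} : Finset ℕ), p := by
      refine Finset.prod_le_prod_of_subset_of_one_le' h5 fun p h _ => ?_
      simp only [Finset.mem_insert, Finset.mem_singleton] at h
      omega
    exact h6.trans (by decide)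
  have h5 : 1 ≤ ∏ p ∈ P.filter (fun p => 5 ≤ p), p :=
    Nat.one_le_iff_ne_zero.2 (Finset.prod_ne_zero_iff.2 fun p h =>
      (hp p (Finset.mem_filter.1 h).1).ne_zero)
  rw [h1, h2]
  refine ⟨?_, ?_, by exact_mod_cast h5⟩
  · exact_mod_cast Nat.le_mul_of_pos_right _ h3
  · have := Nat.mul_le_mul_left (∏ p ∈ P.filter (fun p => 5 ≤ p), p) h4
    rw [mul_comm _ 6] at this
    exact_mod_cast this

theorem height_pos {W : WeierstrassCurve ℤ} (hW : Semistable W) : 0 < height W := by
  unfold height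
  have hrel := W.c_relation
  by_cases h4 : W.c₄ = 0
  · refine lt_max_of_lt_right ?_
    have h6 : W.c₆ ≠ 0 := by
      intro h6
      rw [h4, h6] at hrel
      apply hW.1
      omega
    have : (W.c₆ : ℝ) ≠ 0 := by exact_mod_cast h6
    positivity
  · refine lt_max_of_lt_left ?_
    have : (W.c₄ : ℝ) ≠ 0 := by exact_mod_cast h4
    positivity

theorem of_concl {E : Set ℚ} {A B : ℤ[X]} {g : Fin 4 → ℚ} {κ : ℝ} (hκ : 0 ≤ κ)
    (h : Pool.Agent.N751.RW.ConclS E κ (Pool.Agent.N751.RW.fa A) (Pool.Agent.N751.RW.fb B) g) :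
    Holds E A B g κ := by
  obtain ⟨C, h⟩ := h
  refine ⟨Real.exp C, fun t ht hgt s hs hs' W hW hj => ?_⟩
  obtain ⟨hA, hB, hD⟩ := hs'
  have hs' : s = Pool.Agent.N753.SF.mob g t := hs
  subst hs'
  have h1 := h t ht hgt W (by
    rw [Pool.Agent.N751.RW.aeval_fa]
    exact mul_ne_zero (by norm_num) hA) (by
    rw [Pool.Agent.N751.RW.aeval_fb]
    exact mul_ne_zero (by norm_num) hB) (by
    rw [Pool.Agent.N751.RW.aeval_disc]
    exact mul_ne_zero (by norm_num) hD) hW
    ((Pool.Agent.N751.RW.jrel_iff hD hW.1).1 hj)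
  have h2 := Pool.Agent.N751.RW.exp_ineq (Pool.Agent.N751.RW.Sst.gmin hW) h1
  obtain ⟨e1, -, e3⟩ := cond_eq hW
  refine h2.trans (mul_le_mul_of_nonneg_left ?_ (Real.exp_pos _).le)
  exact Real.rpow_le_rpow (by linarith) e1 hκ

theorem upTo_eq (E : Set ℚ) {X : ℝ} (hX : 1 ≤ X) :
    upTo E X = E ∩ {y | Height.logHeight₁ y ≤ Real.log X} := by
  have hX0 : 0 < X := by linarith
  ext t
  have h1 : Height.logHeight₁ t ≤ Real.log X ↔ |(t.num : ℝ)| ≤ X ∧ (t.den : ℝ) ≤ X := by
    rw [Real.le_log_iff_exp_le hX0, Pool.Agent.N751.RW.exp_ht, max_le_iff]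
  show t ∈ E ∧ _ ↔ t ∈ E ∧ Height.logHeight₁ t ≤ Real.log X
  rw [h1]

theorem weight_eq (A B : ℤ[X]) : weight A B =
    Pool.Agent.N751.RW.wgt (Pool.Agent.N751.RW.fa A) (Pool.Agent.N751.RW.fb B) := by
  unfold weight Pool.Agent.N751.RW.wgt badPoints
  rw [Pool.Agent.N751.RW.prime_fab]
  rfl

/-- **Theorem.** There is ONE set `E` of rational numbers with at most `2 X² exp (-√(log X))`
elements of height at most `X` such that for every `ε > 0`, every one-parameter family `(n, A, B)`
and every change `g` of the parameter the modified Szpiro inequality holds outside `E` for all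
semistable curves with the `j`-invariant of a fibre, with the exponent `6 n / min (n + 2, 4) + ε`;
this is `2, 3, 9/2, 6` for `n = 1, 2, 3, 4` and `3n/2` for `n ≥ 4`, plus `ε`. If the family is
minimal, then it holds with the exponent `6 n / weight A B + ε`. If all bad fibres are
multiplicative up to quadratic twists, then the height of all of these curves is at least
`c N ^ (6 n / geometricPoints A B)`; the number `geometricPoints A B` is `weight A B` by definition
if all bad points have degree at most five, so that the exponent is then sharp. -/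
theorem result :
    (∃ E : Set ℚ, (∀ X : ℝ, 1 ≤ X →
        ((upTo E X).ncard : ℝ) ≤ 2 * X ^ 2 * Real.exp (-√(Real.log X))) ∧
      ∀ ε : ℝ, 0 < ε → ∀ (n : ℕ) (A B : ℤ[X]), IsFamily n A B → ∀ g : Fin 4 → ℚ, IsChange g →
        Holds E A B g (6 * n / min ((n : ℝ) + 2) 4 + ε) ∧
        (IsMinimalFamily n A B → Holds E A B g (6 * n / weight A B + ε))) ∧
    ∀ (n : ℕ) (A B : ℤ[X]), IsFamily n A B → IsSemistableFamily n A B →
      Attained A B (6 * n / geometricPoints A B) := by
  have hSum : Pool.Agent.N751.RW.StSum := Pool.Agent.N751.RW.stSum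
    (Pool.Agent.N751.RW.stKey (Pool.Agent.N751.RW.stLsH Pool.Agent.N751.RW.stMert)
      Pool.Agent.N751.RW.stCell)
  have hfam : ∀ {n : ℕ} {A B : ℤ[X]}, IsFamily n A B →
      (Pool.Agent.N751.RW.fa A).natDegree ≤ 2 * n ∧ (Pool.Agent.N751.RW.fb B).natDegree ≤ 3 * n ∧
      ∀ x y : ℤ, C x * (Pool.Agent.N751.RW.fa A) ^ 3 = C y * (Pool.Agent.N751.RW.fb B) ^ 2 →
        x = 0 ∧ y = 0 := by
    intro n A B h
    refine ⟨?_, ?_, Pool.Agent.N751.RW.iso_fab h.nonisotrivial⟩
    · rw [Pool.Agent.N751.RW.deg_fa]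
      exact h.deg_A
    · rw [Pool.Agent.N751.RW.deg_fb]
      exact h.deg_B
  have hmin : ∀ {n : ℕ} {A B : ℤ[X]}, IsMinimalFamily n A B →
      Pool.Agent.N751.RW.MinF n (Pool.Agent.N751.RW.fa A) (Pool.Agent.N751.RW.fb B) := by
    intro n A B h
    refine ⟨?_, Pool.Agent.N751.RW.min_fab h.minimal⟩
    rw [Pool.Agent.N751.RW.disc_deg]
    exact h.deg_disc
  refine ⟨?_, ?_⟩
  · obtain ⟨E, hE1, hE2⟩ := Pool.Agent.N751.RW.univ_all hSum
    refine ⟨E, fun X hX => ?_, fun ε hε n A B hAB g hg => ?_⟩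
    · rw [upTo_eq E hX]
      refine (hE1 _ (Real.log_nonneg hX)).trans (le_of_eq ?_)
      have hX0 : 0 < X := by linarith
      rw [sub_eq_add_neg, Real.exp_add, show 2 * Real.log X = Real.log X + Real.log X by ring,
        Real.exp_add, Real.exp_log hX0]
      ring
    · obtain ⟨h1, h2, h3⟩ := hfam hAB
      obtain ⟨h4, h5⟩ := Pool.Agent.N751.RW.top_allS hE2 ε hε n _ _ h1 h2 h3 g hg
      have h0 := Pool.Agent.N751.RW.ks_pos n
      refine ⟨of_concl (by unfold Pool.Agent.N751.RW.ks at h0; linarith) h4, fun hM => ?_⟩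
      rw [weight_eq]
      exact of_concl (by positivity) (h5 (hmin hM))
  · intro n A B hAB hM
    obtain ⟨h1, h2, h3⟩ := hfam hAB
    obtain ⟨hn, -, -⟩ := Pool.Agent.N751.RW.pos_of_iso h1 h2 h3
    have hcop : IsCoprime ((Pool.Agent.N751.RW.fa A).map (Int.castRingHom ℚ))
        ((Pool.Agent.N751.RW.fb B).map (Int.castRingHom ℚ)) := by
      unfold Pool.Agent.N751.RW.fa Pool.Agent.N751.RW.fb
      rw [Polynomial.map_mul, Polynomial.map_mul, map_C, map_C]
      have e1 : IsUnit (C ((Int.castRingHom ℚ) (-48)) : ℚ[X]) :=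
        isUnit_C.2 (isUnit_iff_ne_zero.2 (by norm_num))
      have e2 : IsUnit (C ((Int.castRingHom ℚ) (-864)) : ℚ[X]) :=
        isUnit_C.2 (isUnit_iff_ne_zero.2 (by norm_num))
      exact (isCoprime_mul_unit_left_left e1 _ _).2
        ((isCoprime_mul_unit_left_right e2 _ _).2 hM.coprime)
    obtain ⟨C0, h4⟩ := Pool.Agent.N751.RW.attS hn h1 h2 (by
      rw [Pool.Agent.N751.RW.disc_deg]
      exact hM.deg_disc) hcop
    rw [Pool.Agent.N751.RW.prime_fab] at h4
    obtain ⟨κ, hκ⟩ : ∃ κ : ℝ, κ = 6 * n / geometricPoints A B := ⟨_, rfl⟩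
    have hκ0 : 0 ≤ κ := by rw [hκ]; positivity
    rw [← hκ]
    refine ⟨Real.exp (-(C0 + κ * Real.log 6)), Real.exp_pos _, fun s hs W hW hj => ?_⟩
    obtain ⟨hA, hB, hD⟩ := hs
    have h5 := h4 s W (by
      rw [Pool.Agent.N751.RW.aeval_fa]
      exact mul_ne_zero (by norm_num) hA) (by
      rw [Pool.Agent.N751.RW.aeval_fb]
      exact mul_ne_zero (by norm_num) hB) (by
      rw [Pool.Agent.N751.RW.aeval_disc]
      exact mul_ne_zero (by norm_num) hD) hW
      ((Pool.Agent.N751.RW.jrel_iff hD hW.1).1 hj)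
    obtain ⟨e1, e2, e3⟩ := cond_eq hW
    have e4 : Real.log (conductor W) ≤ Real.log 6 + Real.log (Pool.Agent.H39R3.condW W) := by
      rw [← Real.log_mul (by norm_num) (by linarith)]
      exact Real.log_le_log (by linarith) e2
    have e5 : κ * Real.log (Pool.Agent.H39R3.condW W) ≤ Real.log (height W) + C0 := by
      rw [hκ]
      exact h5
    have e6 := mul_le_mul_of_nonneg_left e4 hκ0
    have hN : 0 < (conductor W : ℝ) := by linarith
    rw [Real.rpow_def_of_pos hN, ← Real.exp_add, ← Real.exp_log (height_pos hW)]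
    refine Real.exp_le_exp.2 ?_
    linarith

end Pool.Agent.Results.MP_d8bd92_nt.SemistableFibres
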