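import Mathlib
import Pool.Agent.N906.SS.All

/-!
# Semistable elliptic curves over `ℚ` with a large Szpiro ratio: the exact count up to the second order term

Let `1 < σ < 6/5` and `C > 0`. Among all semistable elliptic curves over `ℚ` with `|c₄| ≤ X²`, `|c₆| ≤ X³` (there are about
`c X⁵` of them) the number `E(X)` of those with `|Δ| ≥ C N ^ σ` satisfies

  `log E(X) = (6/σ - 1) log X + (√(48 (1 - 1/σ)) + o(1)) √(log X / log log X)`.

The exponent `6/σ - 1` becomes zero for `σ = 6`, the exponent in Szpiro's conjecture. For all curves instead of the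
semistable ones the constant is `√(96 (1 - 1/σ))` (`MP_cafdd5_nt.AllCurvesSecondOrder`).
-/

set_option autoImplicit false

namespace Pool.Agent.Results.MP_d8bd92_nt.SemistableSecondOrder

open Filter Topology

/-- the conductor of a semistable curve: the product of the primes dividing the discriminant -/
def conductor (W : WeierstrassCurve ℤ) : ℕ := ∏ p ∈ W.Δ.natAbs.primeFactors, p

/-- `W` is an elliptic curve with semistable reduction at all primes: `Δ ≠ 0` and `gcd(c₄, Δ) = 1` (so `W` is a global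
minimal model) -/
def Semistable (W : WeierstrassCurve ℤ) : Prop := W.Δ ≠ 0 ∧ IsCoprime W.c₄ W.Δ

/-- the semistable elliptic curves over `ℚ`, given by the invariants `(c₄, c₆)` of their global minimal models, with
`|c₄| ≤ X²`, `|c₆| ≤ X³` and `|Δ| ≥ C N ^ σ` -/
def Curves (σ C X : ℝ) : Set (ℤ × ℤ) :=
  {q | ∃ W : WeierstrassCurve ℤ, Semistable W ∧ q = (W.c₄, W.c₆) ∧
    |(W.c₄ : ℝ)| ≤ X ^ 2 ∧ |(W.c₆ : ℝ)| ≤ X ^ 3 ∧ C * (conductor W : ℝ) ^ σ ≤ |(W.Δ : ℝ)|}

/-- **Theorem.** Let `1 < σ < 6/5` and `C > 0`. The number `E(X)` of the semistable elliptic curves over `ℚ` with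
`|c₄| ≤ X²`, `|c₆| ≤ X³` and `|Δ| ≥ C N ^ σ` is finite, and
`(log E(X) - (6/σ - 1) log X) / √(log X / log log X)` tends to `√(48 (1 - 1/σ))`. -/
theorem result : ∀ σ C : ℝ, 1 < σ → σ < 6 / 5 → 0 < C →
    (∀ X : ℝ, (Curves σ C X).Finite) ∧
    Tendsto (fun X : ℝ => (Real.log ((Curves σ C X).ncard : ℝ) - (6 / σ - 1) * Real.log X) /
      √(Real.log X / Real.log (Real.log X))) atTop (𝓝 √(48 * (1 - 1 / σ))) := by
  have h : ∀ σ C X : ℝ, Curves σ C X = Pool.Agent.N906.SS.SV σ C X := by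
    intro σ C X
    ext q
    constructor
    · rintro ⟨W, ⟨h1, h2⟩, h3, h4, h5, h6⟩
      exact ⟨W, h1, h2, h3, h4, h5, h6⟩
    · rintro ⟨W, h1, h2, h3, h4, h5, h6⟩
      exact ⟨W, ⟨h1, h2⟩, h3, h4, h5, h6⟩
  intro σ C h1 h2 h3
  simp only [h]
  exact Pool.Agent.N906.SS.fins_all σ C h1 h2 h3

end Pool.Agent.Results.MP_d8bd92_nt.SemistableSecondOrder
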