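import Pool.Agent.N757.SZ.Down2
import Pool.Agent.N757.SZ.Up
import Pool.Agent.N757.SZ.Count

/-!
# Szpiro's inequality for all curves with a large discriminant, and for a thin semistable family

`H = max (|c₄|³, c₆²)` is the naive height. For all `0 < κ < 1` and `n, N ≥ 1` the following
statements are equivalent (in particular (2) and (3) do not depend on `κ`, `n`, `N`):
(1) `|Δ| ≤ K N₆ ^ 6 H ^ δ` for all elliptic curves over `ℚ` and all `δ > 0`;
(2) `|Δ| ≤ K N₆ ^ (6 + ε)` for all elliptic curves over `ℚ` with `|Δ| ≥ H ^ κ`;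
(3) `|Δ| ≤ K N ^ (6 + ε)` for the semistable elliptic curves with `|Δ| ≥ H ^ κ`;
(4) the same for those of them which have a point of order 2, a discriminant divisible by a given
integer and which belong to a family with `O (X ^ (2 / (5 n - 1)))` members of height `≤ X`: the
semistable twists of `y² = x (x² + 2 (A - B) x + C²)`, `A = c ^ n - b ^ n`, `B = b ^ n`, `C = c ^ n`;
(5) `a b c ^ 4 ≤ K rad (a b c) ^ (6 + ε)` for all coprime `a + b = c`.

So Szpiro's conjecture for semistable curves implies (1), (2) and (5).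

Proof. (4) → (5): `(a, b, c) ↦ (c ^ m - b ^ m, b ^ m, c ^ m)`, with `a` the smallest member and a
suitable multiple `m` of `n`: this map of the line minus three points keeps the size of
`log (a b c ^ 4) - 6 log rad (a b c)`. (5) → (1): apply (5) to `c₄³ - c₆² = 1728 Δ`.
-/

set_option autoImplicit false

namespace Pool.Agent.Results.MP_d8bd92_nt.SzpiroReduction

open Finset

/-- `W` is a global minimal Weierstrass equation: `Δ ≠ 0`, and `|Δ|` is smallest among all integral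
Weierstrass equations that are obtained from `W` by a change of variables over `ℚ` -/
def IsGlobalMinimal (W : WeierstrassCurve ℤ) : Prop :=
  W.Δ ≠ 0 ∧ ∀ W' : WeierstrassCurve ℤ,
    (∃ C : WeierstrassCurve.VariableChange ℚ,
      C • W.map (Int.castRingHom ℚ) = W'.map (Int.castRingHom ℚ)) → |W.Δ| ≤ |W'.Δ|

/-- `Δ ≠ 0` and `gcd(c₄, Δ) = 1`: `W` is a global minimal equation of a semistable elliptic curve
over `ℚ` -/
def Semistable (W : WeierstrassCurve ℤ) : Prop := W.Δ ≠ 0 ∧ IsCoprime W.c₄ W.Δ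

/-- the product of the primes dividing `Δ(W)`, that is the conductor if `W` is `Semistable` -/
def conductor (W : WeierstrassCurve ℤ) : ℕ := ∏ p ∈ W.Δ.natAbs.primeFactors, p

/-- `N₆`, the prime-to-6 part of the conductor of a global minimal equation: the product over the
primes `p ≥ 5` dividing `Δ` of `p` (multiplicative reduction, `p ∤ c₄`) or `p²` (additive,
`p ∣ c₄`). It differs from the conductor by a factor which is at most `2 ^ 8 * 3 ^ 5`. -/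
def conductor6 (W : WeierstrassCurve ℤ) : ℕ :=
  ∏ p ∈ W.Δ.natAbs.primeFactors.filter (fun p => 5 ≤ p), if (p : ℤ) ∣ W.c₄ then p ^ 2 else p

/-- the naive height `max (|c₄|³, c₆²)` -/
noncomputable def height (W : WeierstrassCurve ℤ) : ℝ := max (|(W.c₄ : ℝ)| ^ 3) ((W.c₆ : ℝ) ^ 2)

/-- `|Δ| ≥ H ^ κ` -/
def Large (κ : ℝ) (W : WeierstrassCurve ℤ) : Prop := height W ^ κ ≤ |(W.Δ : ℝ)|

/-- there is a rational point of order 2: `4x³ + b₂x² + 2b₄x + b₆` has a rational root -/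
def HasTwoTorsion (W : WeierstrassCurve ℤ) : Prop :=
  ∃ r : ℚ, 4 * r ^ 3 + W.b₂ * r ^ 2 + 2 * W.b₄ * r + W.b₆ = 0

/-- There are coprime `0 < b < c` such that with `A = c ^ n - b ^ n`, `B = b ^ n`, `C = c ^ n` the
invariants are `c₄ = C² - 16 A B`, `Δ = - A B C⁴ / 2⁴` or `c₄ = (C² - 16 A B) / 2⁴`,
`Δ = - A B C⁴ / 2¹⁶`: those of the semistable twist of `y² = x (x² + 2 (A - B) x + C²)`. -/
def InFamily (n : ℕ) (W : WeierstrassCurve ℤ) : Prop :=
  ∃ b c : ℕ, 0 < b ∧ b < c ∧ b.Coprime c ∧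
    (16 * W.Δ = -(((c : ℤ) ^ n - b ^ n) * b ^ n * ((c : ℤ) ^ n) ^ 4) ∧
      W.c₄ = ((c : ℤ) ^ n) ^ 2 - 16 * (c ^ n - b ^ n) * b ^ n ∨
    2 ^ 16 * W.Δ = -(((c : ℤ) ^ n - b ^ n) * b ^ n * ((c : ℤ) ^ n) ^ 4) ∧
      16 * W.c₄ = ((c : ℤ) ^ n) ^ 2 - 16 * (c ^ n - b ^ n) * b ^ n)

/-- Szpiro's inequality for the equations with the property `P`: for all `ε > 0` there is `K` with
`|Δ| ≤ K N ^ (6 + ε)` for all of them -/
def Szpiro (N : WeierstrassCurve ℤ → ℕ) (P : WeierstrassCurve ℤ → Prop) : Prop :=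
  ∀ ε : ℝ, 0 < ε → ∃ K : ℝ, ∀ W : WeierstrassCurve ℤ, P W →
    |(W.Δ : ℝ)| ≤ K * (N W : ℝ) ^ (6 + ε)

theorem szpiro_iff (N : WeierstrassCurve ℤ → ℕ) (P : WeierstrassCurve ℤ → Prop) :
    Pool.Agent.N757.SZ.Sz 0 N P ↔ Szpiro N P := by
  simp only [Pool.Agent.N757.SZ.Sz, Szpiro, sub_zero, Real.rpow_one, Real.rpow_zero, mul_one]

theorem abc_iff : Pool.Agent.N757.SZ.AbcT 0 ↔ ∀ ε : ℝ, 0 < ε → ∃ K : ℝ, ∀ a b : ℕ, 0 < a → 0 < b →
    a.Coprime b → (a * b * (a + b) ^ 4 : ℝ) ≤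
      K * ((∏ p ∈ (a * b * (a + b)).primeFactors, p : ℕ) : ℝ) ^ (6 + ε) := by
  have e : ∀ a b : ℕ, ((a * b * (a + b) : ℕ) : ℝ) ^ (1 - (0 : ℝ)) *
      ((a + b : ℕ) : ℝ) ^ (3 + 3 * (0 : ℝ)) = a * b * (a + b) ^ 4 := by
    intro a b
    rw [sub_zero, Real.rpow_one, mul_zero, add_zero]
    have : (3 : ℝ) = ((3 : ℕ) : ℝ) := by norm_num
    rw [this, Real.rpow_natCast]
    push_cast
    ring
  simp only [Pool.Agent.N757.SZ.AbcT, e, Pool.Agent.N757.SZ.rad]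

theorem all_iff : Pool.Agent.N757.SZ.AllCurves 0 ↔ ∀ δ : ℝ, 0 < δ → ∃ K : ℝ,
    ∀ W : WeierstrassCurve ℤ, IsGlobalMinimal W →
      |(W.Δ : ℝ)| ≤ K * (conductor6 W : ℝ) ^ 6 * height W ^ δ := by
  simp only [Pool.Agent.N757.SZ.AllCurves, sub_zero, Real.rpow_one, Real.rpow_zero, mul_one]
  rfl

theorem mono {N : WeierstrassCurve ℤ → ℕ} {P Q : WeierstrassCurve ℤ → Prop}
    (h : ∀ W, Q W → P W) (hP : Szpiro N P) : Szpiro N Q := by
  intro ε hε
  obtain ⟨K, hK⟩ := hP ε hε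
  exact ⟨K, fun W hW => hK W (h W hW)⟩

/-- from all curves to the semistable ones -/
theorem to_semistable {κ : ℝ}
    (h : Szpiro conductor6 (fun W => IsGlobalMinimal W ∧ Large κ W)) :
    Szpiro conductor (fun W => Semistable W ∧ Large κ W) := by
  intro ε hε
  obtain ⟨K, hK⟩ := h ε hε
  refine ⟨max K 0, fun W hW => ?_⟩
  have h1 := hK W ⟨Pool.Agent.N757.SZ.minimal_of_coprime hW.1.1 hW.1.2, hW.2⟩
  have h2 : (conductor6 W : ℝ) ≤ conductor W := by
    exact_mod_cast Pool.Agent.N757.SZ.conductor6_le hW.1.2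
  calc |(W.Δ : ℝ)| ≤ K * (conductor6 W : ℝ) ^ (6 + ε) := h1
    _ ≤ max K 0 * (conductor6 W : ℝ) ^ (6 + ε) :=
        mul_le_mul_of_nonneg_right (le_max_left _ _) (by positivity)
    _ ≤ max K 0 * (conductor W : ℝ) ^ (6 + ε) := by
        apply mul_le_mul_of_nonneg_left _ (le_max_right _ _)
        exact Real.rpow_le_rpow (by positivity) h2 (by linarith)

/-- from the family to the `abc` side -/
theorem to_abc {κ : ℝ} (h0 : 0 < κ) (h1 : κ < 1) {n N : ℕ} (hn : 1 ≤ n) (hN : 1 ≤ N)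
    (h : Szpiro conductor (fun W => Semistable W ∧ Large κ W ∧ HasTwoTorsion W ∧
      (N : ℤ) ∣ W.Δ ∧ InFamily n W)) : Pool.Agent.N757.SZ.AbcT 0 := by
  apply Pool.Agent.N757.SZ.down le_rfl zero_le_one h0.le h1 hn hN
  rw [szpiro_iff]
  refine mono ?_ h
  rintro W ⟨w1, w2, w3, w4, w5, w6⟩
  exact ⟨⟨w1, w2⟩, w3, w4, w5, w6⟩

theorem result :
    (∀ κ : ℝ, 0 < κ → κ < 1 → ∀ n N : ℕ, 1 ≤ n → 1 ≤ N → List.TFAE [
      ∀ δ : ℝ, 0 < δ → ∃ K : ℝ, ∀ W : WeierstrassCurve ℤ, IsGlobalMinimal W →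
        |(W.Δ : ℝ)| ≤ K * (conductor6 W : ℝ) ^ 6 * height W ^ δ,
      Szpiro conductor6 (fun W => IsGlobalMinimal W ∧ Large κ W),
      Szpiro conductor (fun W => Semistable W ∧ Large κ W),
      Szpiro conductor (fun W => Semistable W ∧ Large κ W ∧ HasTwoTorsion W ∧
        (N : ℤ) ∣ W.Δ ∧ InFamily n W),
      ∀ ε : ℝ, 0 < ε → ∃ K : ℝ, ∀ a b : ℕ, 0 < a → 0 < b → a.Coprime b →
        (a * b * (a + b) ^ 4 : ℝ) ≤
          K * ((∏ p ∈ (a * b * (a + b)).primeFactors, p : ℕ) : ℝ) ^ (6 + ε)]) ∧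
    (Szpiro conductor Semistable → ∀ κ : ℝ, 0 < κ →
      Szpiro conductor6 (fun W => IsGlobalMinimal W ∧ Large κ W)) ∧
    (∀ n : ℕ, 1 ≤ n → ∀ X : ℝ, 1 ≤ X →
      {q : ℤ × ℤ | ∃ W, InFamily n W ∧ height W ≤ X ∧ q = (W.c₄, W.Δ)}.Finite ∧
      ({q : ℤ × ℤ | ∃ W, InFamily n W ∧ height W ≤ X ∧ q = (W.c₄, W.Δ)}.ncard : ℝ) ≤
        18 * X ^ (2 / (5 * (n : ℝ) - 1))) := by
  have hup : ∀ κ : ℝ, 0 < κ → Pool.Agent.N757.SZ.AllCurves 0 →
      Szpiro conductor6 (fun W => IsGlobalMinimal W ∧ Large κ W) := by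
    intro κ h0 h
    rw [← szpiro_iff]
    exact Pool.Agent.N757.SZ.up zero_le_one (by simpa using h0) h
  refine ⟨?_, ?_, fun n hn X hX => Pool.Agent.N757.SZ.count hn hX⟩
  · intro κ h0 h1 n N hn hN
    rw [← abc_iff, ← all_iff]
    tfae_have 1 → 2 := hup κ h0
    tfae_have 2 → 3 := to_semistable
    tfae_have 3 → 4 := mono fun W hW => ⟨hW.1, hW.2.1⟩
    tfae_have 4 → 5 := to_abc h0 h1 hn hN
    tfae_have 5 → 1 := fun h => h.all le_rfl zero_le_one
    tfae_finish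
  · intro h κ h0
    have h2 : Pool.Agent.N757.SZ.AbcT 0 :=
      to_abc (κ := 1 / 2) (n := 1) (N := 1) (by norm_num) (by norm_num) le_rfl le_rfl
        (mono (fun W hW => hW.1) h)
    exact hup κ h0 (h2.all le_rfl zero_le_one)

end Pool.Agent.Results.MP_d8bd92_nt.SzpiroReduction
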